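import Pool.Agent.H8.DS.TarK

/-! # Module COT (helper23) -/

namespace DS

open Set MeasureTheory

namespace H23COT

theorem cover (N : Set ℝ) : {θ : ℝ | Real.cos θ / Real.sin θ ∈ N} ⊆
    {θ : ℝ | Real.sin θ = 0} ∪
      ⋃ k : ℤ, (fun t : ℝ => (k : ℝ) * Real.pi + (Real.pi / 2 - Real.arctan t)) '' N := by
  intro θ hθ
  by_cases h0 : Real.sin θ = 0
  · exact Or.inl h0
  right
  have hpi := Real.pi_pos
  rw [mem_iUnion]
  refine ⟨⌊θ / Real.pi⌋, Real.cos θ / Real.sin θ, hθ, ?_⟩
  set k : ℤ := ⌊θ / Real.pi⌋ with hk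
  have h1 : (k : ℝ) * Real.pi ≤ θ := by
    have := Int.floor_le (θ / Real.pi)
    rwa [le_div_iff₀ hpi] at this
  have h2 : θ < ((k : ℝ) + 1) * Real.pi := by
    have := Int.lt_floor_add_one (θ / Real.pi)
    rwa [div_lt_iff₀ hpi] at this
  have h3 : (k : ℝ) * Real.pi ≠ θ := by
    intro h
    exact h0 (Real.sin_eq_zero_iff.2 ⟨k, h⟩)
  have h4 : (k : ℝ) * Real.pi < θ := lt_of_le_of_ne h1 h3
  have h5 : Real.cos θ / Real.sin θ = Real.tan (Real.pi / 2 - (θ - (k : ℝ) * Real.pi)) := by
    rw [Real.tan_pi_div_two_sub, Real.tan_sub_int_mul_pi, Real.tan_eq_sin_div_cos, inv_div]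
  show (k : ℝ) * Real.pi + (Real.pi / 2 - Real.arctan (Real.cos θ / Real.sin θ)) = θ
  rw [h5, Real.arctan_tan (by linarith) (by linarith)]
  ring

end H23COT

theorem pf_COT : T_COT := by
  intro N hN
  refine measure_mono_null (H23COT.cover N) (measure_union_null ?_ ?_)
  · refine Set.Countable.measure_zero ?_ _
    have h : {θ : ℝ | Real.sin θ = 0} = Set.range (fun n : ℤ => (n : ℝ) * Real.pi) := by
      ext θ
      rw [mem_ofPred_eq, Real.sin_eq_zero_iff, Set.mem_range]
    rw [h]
    exact Set.countable_range _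
  · refine measure_iUnion_null fun k => ?_
    refine addHaar_image_eq_zero_of_differentiableOn_of_addHaar_eq_zero volume ?_ hN
    exact ((differentiable_const _).add ((differentiable_const _).sub
      Real.differentiable_arctan)).differentiableOn

end DS
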