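import Pool.Agent.H8.DS.TarK

/-! # Module EXC1 (helper23) -/

namespace DS

open Set Data MeasureTheory

namespace H23EXC1

variable {C S : Type}

theorem sub1 (X : Data C S) (hX : X.Surface) (c : C) (m n : ℤ) :
    {t : ℝ | ∃ e f, X.kind c = .flat e f ∧ m * e.1 + n * f.1 = t * (m * e.2 + n * f.2) ∧
      ¬ (m = 0 ∧ n = 0)}.Subsingleton := by
  rintro t ⟨e, f, hk, h1, h2⟩ t' ⟨e', f', hk', h1', -⟩
  rw [hk] at hk'
  obtain ⟨rfl, rfl⟩ := Comp.flat.inj hk'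
  have hg := hX.good c
  rw [hk] at hg
  have hg' : e.1 * f.2 - e.2 * f.1 ≠ 0 := hg
  by_cases h0 : (m : ℝ) * e.2 + n * f.2 = 0
  · exfalso
    rw [h0, mul_zero] at h1
    have h3 : (m : ℝ) * (e.1 * f.2 - e.2 * f.1) = 0 := by
      linear_combination f.2 * h1 - f.1 * h0
    have h4 : (n : ℝ) * (e.1 * f.2 - e.2 * f.1) = 0 := by
      linear_combination e.1 * h0 - e.2 * h1
    refine h2 ⟨?_, ?_⟩
    · exact_mod_cast (mul_eq_zero.1 h3).resolve_right hg'
    · exact_mod_cast (mul_eq_zero.1 h4).resolve_right hg'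
  · exact mul_right_cancel₀ h0 (h1.symm.trans h1')

theorem end_ct [Finite S] (X : Data C S) (c : C) : {z | X.OnEnd c z}.Countable := by
  have h : {z | X.OnEnd c z} ⊆ ⋃ s : S, ⋃ k : ℤ × ℤ,
      ({act ((X.kind c).el k) (X.pt s 0), act ((X.kind c).el k) (X.pt s 1)} : Set (ℝ × ℝ)) := by
    rintro z ⟨s, -, g, ⟨k, rfl⟩, hz⟩
    rw [mem_iUnion]
    refine ⟨s, ?_⟩
    rw [mem_iUnion]
    exact ⟨k, hz⟩
  refine Set.Countable.mono h (countable_iUnion fun s => countable_iUnion fun k => ?_)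
  exact (Set.toFinite _).countable

end H23EXC1

open H23EXC1 in
theorem pf_EXC1 : T_EXC1 := by
  intro C S _ _ X hX
  have h1 : {t : ℝ | ∃ c, ∃ m n : ℤ, ∃ e f, X.kind c = .flat e f ∧
      m * e.1 + n * f.1 = t * (m * e.2 + n * f.2) ∧ ¬ (m = 0 ∧ n = 0)}.Countable := by
    have h : {t : ℝ | ∃ c, ∃ m n : ℤ, ∃ e f, X.kind c = .flat e f ∧
        m * e.1 + n * f.1 = t * (m * e.2 + n * f.2) ∧ ¬ (m = 0 ∧ n = 0)} ⊆
        ⋃ c : C, ⋃ m : ℤ, ⋃ n : ℤ, {t : ℝ | ∃ e f, X.kind c = .flat e f ∧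
          m * e.1 + n * f.1 = t * (m * e.2 + n * f.2) ∧ ¬ (m = 0 ∧ n = 0)} := by
      rintro t ⟨c, m, n, h⟩
      simp only [mem_iUnion]
      exact ⟨c, m, n, h⟩
    exact Set.Countable.mono h (countable_iUnion fun c => countable_iUnion fun m =>
      countable_iUnion fun n => (sub1 X hX c m n).countable)
  have h2 : {t : ℝ | ∃ s, 0 < X.b s ∧ (X.a s = t * X.b s ∨
      X.a s + X.len s = t * X.b s)}.Countable := by
    have h : {t : ℝ | ∃ s, 0 < X.b s ∧ (X.a s = t * X.b s ∨ X.a s + X.len s = t * X.b s)} ⊆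
        ⋃ s : S, ({X.a s / X.b s, (X.a s + X.len s) / X.b s} : Set ℝ) := by
      rintro t ⟨s, hs, h⟩
      rw [mem_iUnion]
      refine ⟨s, ?_⟩
      rcases h with h | h
      · left
        rw [h, mul_div_cancel_right₀ _ hs.ne']
      · right
        show t = _
        rw [h, mul_div_cancel_right₀ _ hs.ne']
    exact Set.Countable.mono h (countable_iUnion fun s => (Set.toFinite _).countable)
  have h3 : {t : ℝ | ∃ c z h, X.OnEnd c z ∧ 0 < h ∧ X.OnEnd c (fwd t z h)}.Countable := by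
    have h : {t : ℝ | ∃ c z h, X.OnEnd c z ∧ 0 < h ∧ X.OnEnd c (fwd t z h)} ⊆
        ⋃ c : C, (fun p : (ℝ × ℝ) × ℝ × ℝ => (p.2.1 - p.1.1) / (p.2.2 - p.1.2)) ''
          ({z | X.OnEnd c z} ×ˢ {z | X.OnEnd c z}) := by
      rintro t ⟨c, z, h, hz, hh, hz'⟩
      rw [mem_iUnion]
      refine ⟨c, (z, fwd t z h), ⟨hz, hz'⟩, ?_⟩
      show (z.1 + t * h - z.1) / (z.2 + h - z.2) = t
      rw [add_sub_cancel_left, add_sub_cancel_left, mul_div_cancel_right₀ _ hh.ne']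
    exact Set.Countable.mono h (countable_iUnion fun c =>
      ((end_ct X c).prod (end_ct X c)).image _)
  refine Set.Countable.mono ?_ ((h1.union h2).union h3)
  intro t ht
  by_contra hc
  refine ht ⟨?_, ?_, ?_⟩
  · intro c e f hk m n h
    by_contra h'
    exact hc (Or.inl (Or.inl ⟨c, m, n, e, f, hk, h, h'⟩))
  · intro s _ hb
    constructor
    · intro h
      exact hc (Or.inl (Or.inr ⟨s, hb, Or.inl h⟩))
    · intro h
      exact hc (Or.inl (Or.inr ⟨s, hb, Or.inr h⟩))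
  · intro c z h hz hh _ hz'
    exact hc (Or.inr ⟨c, z, h, hz, hh, hz'⟩)

end DS
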