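import Pool.Agent.H8.DS.TarA

/-! # Module PAIRS (helper23) -/

namespace DS

open Set

namespace H23PAIRS

theorem aux {I I' J : Set ℝ} (hI : I.OrdConnected) (hI' : I'.OrdConnected)
    (hd : Disjoint I I') {x x' : ℝ} (hx : x ∈ I) (hx' : x' ∈ I') (hJ : x ∈ J) (hJ' : x' ∈ J)
    (h : ∃ z ∈ I, ∀ y ∈ J, y ≤ z) (h' : ∃ z ∈ I', ∀ y ∈ J, y ≤ z) : False := by
  rcases le_total x x' with hl | hl
  · obtain ⟨z, hz, h1⟩ := h
    exact Set.disjoint_left.1 hd (hI.out hx hz ⟨hl, h1 _ hJ'⟩) hx'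
  · obtain ⟨z, hz, h1⟩ := h'
    exact Set.disjoint_left.1 hd hx (hI'.out hx' hz ⟨hl, h1 _ hJ⟩)

theorem aux2 {I J J' : Set ℝ} (hJ : J.OrdConnected) (hJ' : J'.OrdConnected)
    (hd : Disjoint J J') {x x' : ℝ} (hx : x ∈ J) (hx' : x' ∈ J') (hI : x ∈ I) (hI' : x' ∈ I)
    (h : ∀ x ∈ I, ∃ y ∈ J, x ≤ y) (h' : ∀ x ∈ I, ∃ y ∈ J', x ≤ y) : False := by
  rcases le_total x x' with hl | hl
  · obtain ⟨z, hz, h1⟩ := h x' hI'
    exact Set.disjoint_left.1 hd (hJ.out hx hz ⟨hl, h1⟩) hx'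
  · obtain ⟨z, hz, h1⟩ := h' x hI
    exact Set.disjoint_left.1 hd hx (hJ'.out hx' hz ⟨hl, h1⟩)

end H23PAIRS

theorem pf_PAIRS : T_PAIRS := by
  classical
  intro S ι κ _ _ p q I J hI hJ dI dJ
  rw [← Nat.card_sum, ← Set.ncard_univ]
  refine Set.ncard_le_ncard_of_injOn (fun x : ι × κ => if (∀ z ∈ I x.1, ∃ y ∈ J x.2, z ≤ y) then
    Sum.inl x.1 else Sum.inr x.2) (fun _ _ => Set.mem_univ _) ?_ (Set.toFinite _)
  rintro ⟨i, j⟩ ⟨h1, x, hxI, hxJ⟩ ⟨i', j'⟩ ⟨h2, x', hxI', hxJ'⟩ he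
  simp only at h1 h2 hxI hxJ hxI' hxJ' he
  by_cases hA : ∀ z ∈ I i, ∃ y ∈ J j, z ≤ y
  · rw [if_pos hA] at he
    by_cases hA' : ∀ z ∈ I i', ∃ y ∈ J j', z ≤ y
    · rw [if_pos hA'] at he
      have hi : i = i' := Sum.inl.inj he
      subst hi
      by_cases hj : j = j'
      · rw [hj]
      · exact (H23PAIRS.aux2 (hJ j) (hJ j') (dJ j j' (h1.symm.trans h2) hj) hxJ hxJ' hxI hxI'
          hA hA').elim
    · rw [if_neg hA'] at he
      cases he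
  · rw [if_neg hA] at he
    by_cases hA' : ∀ z ∈ I i', ∃ y ∈ J j', z ≤ y
    · rw [if_pos hA'] at he
      cases he
    · rw [if_neg hA'] at he
      have hj : j = j' := Sum.inr.inj he
      subst hj
      by_cases hi : i = i'
      · rw [hi]
      · push Not at hA hA'
        obtain ⟨z, hz, hz1⟩ := hA
        obtain ⟨z', hz', hz1'⟩ := hA'
        exact (H23PAIRS.aux (hI i) (hI i') (dI i i' (h1.trans h2.symm) hi) hxI hxI' hxJ hxJ'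
          ⟨z, hz, fun y hy => (hz1 y hy).le⟩ ⟨z', hz', fun y hy => (hz1' y hy).le⟩).elim

end DS
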